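import Pool.Agent.W952.LP.Stm

/-!
# Project LP (helper952), part LP-A: the exactness lemma
-/

set_option autoImplicit false

namespace Pool.Agent.W465.LP

open Pool.Agent.W952.LP Set

abbrev E3 : Type := ℝ × ℝ × ℝ

/-- the pattern without indices -/
structure TP (Z : Set E3) (n : ℕ) (U V : Set E3) (B A C : ℕ → Set E3) : Prop where
  cU : IsClosed U
  cV : IsClosed V
  cB : ∀ i < n, IsClosed (B i)
  cA : ∀ i < n, IsClosed (A i)
  cC : ∀ i < n, IsClosed (C i)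
  kU : IsConnected U
  kV : IsConnected V
  kB : ∀ i < n, IsConnected (B i)
  kA : ∀ i < n, IsConnected (A i)
  kC : ∀ i < n, IsConnected (C i)
  sU : U ⊆ Z
  sV : V ⊆ Z
  sB : ∀ i < n, B i ⊆ Z
  sA : ∀ i < n, A i ⊆ Z
  sC : ∀ i < n, C i ⊆ Z
  cov : ∀ x ∈ Z, x ∈ U ∨ x ∈ V ∨ ∃ i < n, x ∈ B i ∨ x ∈ A i ∨ x ∈ C i
  UB : ∀ i < n, (U ∩ B i).Nonempty
  BA : ∀ i < n, (B i ∩ A i).Nonempty
  AC : ∀ i < n, (A i ∩ C i).Nonempty
  CV : ∀ i < n, (C i ∩ V).Nonempty
  dUV : Disjoint U V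
  dUA : ∀ i < n, Disjoint U (A i)
  dUC : ∀ i < n, Disjoint U (C i)
  dVA : ∀ i < n, Disjoint V (A i)
  dVB : ∀ i < n, Disjoint V (B i)
  dBC : ∀ i < n, Disjoint (B i) (C i)
  dD : ∀ i < n, ∀ j < n, i ≠ j → Disjoint (B i ∪ A i ∪ C i) (B j ∪ A j ∪ C j)

variable {Z : Set E3} {n : ℕ} {U V : Set E3} {B A C : ℕ → Set E3}

theorem TP.swap (h : TP Z n U V B A C) : TP Z n V U C A B where
  cU := h.cV
  cV := h.cU
  cB := h.cC
  cA := h.cA
  cC := h.cB
  kU := h.kV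
  kV := h.kU
  kB := h.kC
  kA := h.kA
  kC := h.kB
  sU := h.sV
  sV := h.sU
  sB := h.sC
  sA := h.sA
  sC := h.sB
  cov := by
    intro x hx
    rcases h.cov x hx with h1 | h1 | ⟨i, hi, h1⟩
    · exact Or.inr (Or.inl h1)
    · exact Or.inl h1
    · exact Or.inr (Or.inr ⟨i, hi, by tauto⟩)
  UB := fun i hi => by rw [inter_comm]; exact h.CV i hi
  BA := fun i hi => by rw [inter_comm]; exact h.AC i hi
  AC := fun i hi => by rw [inter_comm]; exact h.BA i hi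
  CV := fun i hi => by rw [inter_comm]; exact h.UB i hi
  dUV := h.dUV.symm
  dUA := h.dVA
  dUC := h.dVB
  dVA := h.dUA
  dVB := h.dUC
  dBC := fun i hi => (h.dBC i hi).symm
  dD := by
    intro i hi j hj hij
    have := h.dD i hi j hj hij
    have e : ∀ k, C k ∪ A k ∪ B k = B k ∪ A k ∪ C k := by
      intro k
      rw [union_comm, union_comm (C k), union_assoc]
    rw [e, e]
    exact this

theorem toTP (n : ℕ) (K : ℕ → Set E3) (h : PatOn Z n K) (hn : 0 < n) :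
    TP Z n (K 0) (K 1) (fun i => K (3 * i + 2)) (fun i => K (3 * i + 3)) (fun i => K (3 * i + 4))
    where
  cU := h.closed _ (by omega)
  cV := h.closed _ (by omega)
  cB := fun i hi => h.closed _ (by omega)
  cA := fun i hi => h.closed _ (by omega)
  cC := fun i hi => h.closed _ (by omega)
  kU := h.conn _ (by omega)
  kV := h.conn _ (by omega)
  kB := fun i hi => h.conn _ (by omega)
  kA := fun i hi => h.conn _ (by omega)
  kC := fun i hi => h.conn _ (by omega)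
  sU := h.sub _ (by omega)
  sV := h.sub _ (by omega)
  sB := fun i hi => h.sub _ (by omega)
  sA := fun i hi => h.sub _ (by omega)
  sC := fun i hi => h.sub _ (by omega)
  cov := by
    intro x hx
    obtain ⟨t, ht, hxt⟩ := h.cover x hx
    by_cases h0 : t = 0
    · subst h0; exact Or.inl hxt
    by_cases h1 : t = 1
    · subst h1; exact Or.inr (Or.inl hxt)
    refine Or.inr (Or.inr ⟨(t - 2) / 3, by omega, ?_⟩)
    have h3 : t = 3 * ((t - 2) / 3) + 2 ∨ t = 3 * ((t - 2) / 3) + 3 ∨ t = 3 * ((t - 2) / 3) + 4 := by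
      omega
    rcases h3 with h3 | h3 | h3
    · left; show x ∈ K (3 * ((t - 2) / 3) + 2); rw [← h3]; exact hxt
    · right; left; show x ∈ K (3 * ((t - 2) / 3) + 3); rw [← h3]; exact hxt
    · right; right; show x ∈ K (3 * ((t - 2) / 3) + 4); rw [← h3]; exact hxt
  UB := fun i hi => h.adj _ _ (by omega) (by omega) (by unfold Adj; omega)
  BA := fun i hi => h.adj _ _ (by omega) (by omega) (by unfold Adj; omega)
  AC := fun i hi => h.adj _ _ (by omega) (by omega) (by unfold Adj; omega)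
  CV := fun i hi => by
    rw [inter_comm]
    exact h.adj _ _ (by omega) (by omega) (by unfold Adj; omega)
  dUV := h.nadj _ _ (by omega) (by omega) (by unfold Adj; omega)
  dUA := fun i hi => h.nadj _ _ (by omega) (by omega) (by unfold Adj; omega)
  dUC := fun i hi => h.nadj _ _ (by omega) (by omega) (by unfold Adj; omega)
  dVA := fun i hi => h.nadj _ _ (by omega) (by omega) (by unfold Adj; omega)
  dVB := fun i hi => h.nadj _ _ (by omega) (by omega) (by unfold Adj; omega)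
  dBC := fun i hi => h.nadj _ _ (by omega) (by omega) (by unfold Adj; omega)
  dD := by
    have key : ∀ i j, i < j → j < n → Disjoint (K (3 * i + 2) ∪ K (3 * i + 3) ∪ K (3 * i + 4))
        (K (3 * j + 2) ∪ K (3 * j + 3) ∪ K (3 * j + 4)) := by
      intro i j hij hj
      have e : ∀ s t, s < t → t < 3 * n + 2 → ¬ Adj s t → Disjoint (K s) (K t) := h.nadj
      simp only [disjoint_union_left, disjoint_union_right]
      refine ⟨⟨⟨⟨?_, ?_⟩, ?_⟩, ⟨⟨?_, ?_⟩, ?_⟩⟩, ⟨⟨?_, ?_⟩, ?_⟩⟩ <;>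
        exact e _ _ (by omega) (by omega) (by unfold Adj; omega)
    intro i hi j hj hij
    rcases lt_or_gt_of_ne hij with h1 | h1
    · exact key i j h1 hj
    · exact (key j i h1 hi).symm

/-- the arc with its three pieces is connected -/
theorem TP.connD (h : TP Z n U V B A C) {i : ℕ} (hi : i < n) :
    IsPreconnected (B i ∪ A i ∪ C i) := by
  have h1 : IsPreconnected (B i ∪ A i) :=
    IsPreconnected.union' (h.BA i hi) (h.kB i hi).isPreconnected (h.kA i hi).isPreconnected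
  refine IsPreconnected.union' ?_ h1 (h.kC i hi).isPreconnected
  obtain ⟨x, hx1, hx2⟩ := h.AC i hi
  exact ⟨x, Or.inr hx1, hx2⟩

theorem TP.subD (h : TP Z n U V B A C) {i : ℕ} (hi : i < n) : B i ∪ A i ∪ C i ⊆ Z :=
  union_subset (union_subset (h.sB i hi) (h.sA i hi)) (h.sC i hi)

theorem TP.DU (h : TP Z n U V B A C) {i : ℕ} (hi : i < n) :
    ((B i ∪ A i ∪ C i) ∩ U).Nonempty := by
  obtain ⟨x, h1, h2⟩ := h.UB i hi
  exact ⟨x, Or.inl (Or.inl h2), h1⟩

theorem TP.DV (h : TP Z n U V B A C) {i : ℕ} (hi : i < n) :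
    ((B i ∪ A i ∪ C i) ∩ V).Nonempty := by
  obtain ⟨x, h1, h2⟩ := h.CV i hi
  exact ⟨x, Or.inr h1, h2⟩

/-- clopen argument -/
theorem clop {E O F : Set E3} (hE : IsPreconnected E) (hO : IsOpen O) (hF : IsClosed F)
    (h : ∀ x ∈ E, x ∈ O ↔ x ∈ F) (hne : (E ∩ O).Nonempty) : E ⊆ O := by
  intro x hx
  by_contra hxO
  obtain ⟨z, hz1, hz2, hz3⟩ := hE O Fᶜ hO hF.isOpen_compl
    (fun y hy => by
      by_cases hy2 : y ∈ O
      · exact Or.inl hy2
      · exact Or.inr (fun h3 => hy2 ((h y hy).2 h3)))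
    hne ⟨x, hx, fun h3 => hxO ((h x hx).2 h3)⟩
  exact hz3 ((h z hz1).1 hz2)

section

variable (G : Gd)

theorem pt_zero (g i : ℕ) : G.pt g i 0 = ((1 / 2 : ℝ) ^ g, 0, 0) := by
  simp [Gd.pt]

theorem pt_one (g i : ℕ) : G.pt g i 1 = G.pt g 0 1 := by
  simp [Gd.pt]

theorem eps_pos (g : ℕ) : 0 < G.eps g := by
  unfold Gd.eps; positivity

theorem cont_pt (g i : ℕ) : Continuous (G.pt g i) := by
  unfold Gd.pt
  fun_prop

/-- the connected sets which miss the spine point -/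
theorem lemL (hb : S_bun) {g : ℕ} {E : Set E3} (hE : IsPreconnected E) (hs : E ⊆ G.Sp)
    (hne : (E ∩ G.bun g).Nonempty) (hq : ((1 / 2 : ℝ) ^ g, (0 : ℝ), (0 : ℝ)) ∉ E) :
    E ⊆ G.bun g := by
  obtain ⟨-, ⟨O, hO, hO2⟩, hc⟩ := hb G g
  have h1 : ∀ x ∈ E, x ∈ O ↔ x ∈ G.bun g := by
    intro x hx
    rw [← hO2]
    exact ⟨fun h => ⟨h, hs hx⟩, fun h => h.1⟩
  have h2 : E ⊆ O := by
    refine clop hE hO hc (fun x hx => ?_) ?_
    · rw [h1 x hx]
      constructor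
      · exact fun h => Or.inl h
      · rintro (h | h)
        · exact h
        · rw [mem_singleton_iff] at h
          rw [h] at hx
          exact absurd hx hq
    · obtain ⟨x, hx1, hx2⟩ := hne
      exact ⟨x, hx1, (h1 x hx1).2 hx2⟩
  exact fun x hx => (h1 x hx).1 (h2 hx)

/-- the connected sets which miss the two ends of an arc -/
theorem lemM (ho : S_arcO) (hc : S_arcC) {g i : ℕ} {a b : ℝ} (hi : i < G.nn g) (ha : 0 ≤ a)
    (hb : b ≤ 1) {E : Set E3} (hE : IsPreconnected E) (hs : E ⊆ G.Sp)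
    (hne : (E ∩ G.arcO g i a b).Nonempty) (h1 : G.pt g i a ∉ E) (h2 : G.pt g i b ∉ E) :
    E ⊆ G.arcO g i a b := by
  obtain ⟨O, hO, hO2⟩ := ho G g i a b hi
  have h3 : ∀ x ∈ E, x ∈ O ↔ x ∈ G.arcO g i a b := by
    intro x hx
    rw [← hO2]
    exact ⟨fun h => ⟨h, hs hx⟩, fun h => h.1⟩
  have h4 : E ⊆ O := by
    refine clop hE hO (hc G g i a b).1.isClosed (fun x hx => ?_) ?_
    · rw [h3 x hx]
      constructor
      · rintro ⟨y, y1, y2, y3, y4, y5, y6⟩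
        exact ⟨y, y1.le, y2.le, y5, y6⟩
      · rintro ⟨y, y1, y2, y5, y6⟩
        have y7 : a < y := lt_of_le_of_ne y1 (by rintro rfl; exact h1 (y6 ▸ hx))
        have y8 : y < b := lt_of_le_of_ne y2 (by rintro rfl; exact h2 (y6 ▸ hx))
        exact ⟨y, y7, y8, by linarith, by linarith, y5, y6⟩
    · obtain ⟨x, hx1, hx2⟩ := hne
      exact ⟨x, hx1, (h3 x hx1).2 hx2⟩
  exact fun x hx => (h3 x hx).1 (h4 hx)

theorem q_nbun (hj : S_inj) (g : ℕ) : ((1 / 2 : ℝ) ^ g, (0 : ℝ), (0 : ℝ)) ∉ G.bun g := by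
  rintro ⟨i, y, hi, hy, -, h⟩
  rw [← pt_zero G g i] at h
  have := (hj G g g i i 0 y h).2.1
  linarith

/-- a connected set in the gadget without its two ends is in one arc -/
theorem oneArc (hj : S_inj) (ho : S_arcO) (hc : S_arcC) {g : ℕ} {E : Set E3}
    (hE : IsConnected E) (hs : E ⊆ G.Sp) (hb : E ⊆ G.bun g) (hp : G.pt g 0 1 ∉ E) :
    ∃ i < G.nn g, E ⊆ G.arcO g i 0 1 := by
  obtain ⟨x, hx⟩ := hE.nonempty
  obtain ⟨i, y, hi, hy, hr, hxy⟩ := hb hx
  refine ⟨i, hi, lemM G ho hc hi le_rfl le_rfl hE.isPreconnected hs ⟨x, hx, ?_⟩ ?_ ?_⟩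
  · refine ⟨y, hy, ?_, hy, ?_, hr, hxy⟩
    all_goals
      refine lt_of_le_of_ne hr.2.1 ?_
      rintro rfl
      rw [pt_one] at hxy
      exact hp (hxy ▸ hx)
  · rw [pt_zero]
    exact fun h => q_nbun G hj g (hb h)
  · rw [pt_one]; exact hp


/-- STEP 1 -/
theorem step1 (hj : S_inj) (hcp : S_compact) (ho : S_arcO) (hc : S_arcC) {n : ℕ} {U V : Set E3}
    {B A C : ℕ → Set E3} (h : TP G.Sp n U V B A C) (hn : 3 ≤ n) {g : ℕ} (hb : U ⊆ G.bun g)
    (hp : G.pt g 0 1 ∉ U) : False := by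
  obtain ⟨i, hi, hU⟩ := oneArc G hj ho hc h.kU h.sU hb hp
  have hcU : IsCompact U := (hcp G).of_isClosed_subset h.cU h.sU
  have he := eps_pos G g
  set f : E3 → ℝ := fun x => x.2.1 / G.eps g with hf
  have hfc : Continuous f := by
    rw [hf]; fun_prop
  have hfp : ∀ j y, f (G.pt g j y) = y := by
    intro j y
    simp only [hf, Gd.pt]
    field_simp
  obtain ⟨e1, he1, hm1⟩ := hcU.exists_isMinOn h.kU.nonempty hfc.continuousOn
  obtain ⟨e2, he2, hm2⟩ := hcU.exists_isMaxOn h.kU.nonempty hfc.continuousOn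
  obtain ⟨y1, -, -, hy1, hy1', hr1, hx1⟩ := hU he1
  obtain ⟨y2, -, -, hy2, hy2', hr2, hx2⟩ := hU he2
  have hmin : ∀ y, G.pt g i y ∈ U → y1 ≤ y := by
    intro y hy
    have := hm1 hy
    simp only [mem_ofPred_eq, hx1, hfp] at this
    exact this
  have hmax : ∀ y, G.pt g i y ∈ U → y ≤ y2 := by
    intro y hy
    have := hm2 hy
    simp only [mem_ofPred_eq, hx2, hfp] at this
    exact this
  have h12 : y1 ≤ y2 := hmin y2 (hx2 ▸ he2)
  have hmid : ∀ y, y1 ≤ y → y ≤ y2 → G.pt g i y ∈ U := by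
    intro y ha hb'
    by_contra hy
    have hya : y1 < y := lt_of_le_of_ne ha (by rintro rfl; exact hy (hx1 ▸ he1))
    have hyb : y < y2 := lt_of_le_of_ne hb' (by rintro rfl; exact hy (hx2 ▸ he2))
    have hsub := lemM G ho hc (a := 0) (b := y) hi le_rfl (by linarith) h.kU.isPreconnected h.sU
      ⟨e1, he1, ⟨y1, hy1, hya, hy1, hy1', hr1, hx1⟩⟩
      (by rw [pt_zero]; exact fun h => q_nbun G hj g (hb h)) hy
    obtain ⟨z, -, hz2, -, -, -, hz⟩ := hsub he2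
    have : f e2 = z := by rw [hz, hfp]
    rw [hx2, hfp] at this
    linarith
  -- the heights of V
  have hcl : IsClosed (G.pt g i ⁻¹' V) := h.cV.preimage (cont_pt G g i)
  have hV1 : ∀ y, y1 ≤ y → y ≤ y2 → y ∈ (G.pt g i ⁻¹' V)ᶜ := fun y ha hb' hy =>
    Set.disjoint_left.1 h.dUV (hmid y ha hb') hy
  obtain ⟨δ1, hδ1, hB1⟩ := Metric.isOpen_iff.1 hcl.isOpen_compl y1 (hV1 y1 le_rfl h12)
  obtain ⟨δ2, hδ2, hB2⟩ := Metric.isOpen_iff.1 hcl.isOpen_compl y2 (hV1 y2 h12 le_rfl)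
  obtain ⟨a, ha0, ha1, ha2⟩ : ∃ a, 0 < a ∧ a < y1 ∧ y1 - δ1 < a := by
    obtain ⟨a, ha, ha'⟩ := exists_between (max_lt hy1 (by linarith : y1 - δ1 < y1))
    exact ⟨a, (le_max_left _ _).trans_lt ha, ha', (le_max_right _ _).trans_lt ha⟩
  obtain ⟨b, hb0, hb1, hb2⟩ : ∃ b, y2 < b ∧ b < 1 ∧ b < y2 + δ2 := by
    obtain ⟨b, hb, hb'⟩ := exists_between (lt_min hy2' (by linarith : y2 < y2 + δ2))
    exact ⟨b, hb, hb'.trans_le (min_le_left _ _), hb'.trans_le (min_le_right _ _)⟩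
  have hVd : ∀ x ∈ V, x ∉ G.arcO g i a b := by
    rintro x hx ⟨y, z1, z2, -, -, -, rfl⟩
    rcases lt_or_ge y y1 with h1 | h1
    · exact hB1 (by rw [Metric.mem_ball, Real.dist_eq, abs_lt]; constructor <;> linarith) hx
    · rcases le_or_gt y y2 with h2 | h2
      · exact hV1 y h1 h2 hx
      · exact hB2 (by rw [Metric.mem_ball, Real.dist_eq, abs_lt]; constructor <;> linarith) hx
  have hk : ∀ k < n, G.pt g i a ∈ B k ∪ A k ∪ C k ∨ G.pt g i b ∈ B k ∪ A k ∪ C k := by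
    intro k hk
    by_contra hcon
    push Not at hcon
    obtain ⟨x, hx1', hx2'⟩ := h.DU hk
    have hx3 : x ∈ G.arcO g i a b := by
      obtain ⟨y, -, -, z3, z4, z5, rfl⟩ := hU hx2'
      exact ⟨y, by linarith [hmin y hx2'], by linarith [hmax y hx2'], z3, z4, z5, rfl⟩
    have hsub := lemM G ho hc hi ha0.le hb1.le (h.connD hk) (h.subD hk) ⟨x, hx1', hx3⟩
      hcon.1 hcon.2
    obtain ⟨z, hz1, hz2⟩ := h.DV hk
    exact hVd z hz2 (hsub hz1)
  have hdd : ∀ s < n, ∀ t < n, s ≠ t → ∀ x, x ∈ B s ∪ A s ∪ C s → x ∉ B t ∪ A t ∪ C t :=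
    fun s hs t ht hst x hx hx' => Set.disjoint_left.1 (h.dD s hs t ht hst) hx hx'
  have h0 := hk 0 (by omega)
  have h1 := hk 1 (by omega)
  have h2 := hk 2 (by omega)
  have d01 := hdd 0 (by omega) 1 (by omega) (by omega)
  have d02 := hdd 0 (by omega) 2 (by omega) (by omega)
  have d12 := hdd 1 (by omega) 2 (by omega) (by omega)
  rcases h0 with h0 | h0 <;> rcases h1 with h1 | h1
  · exact d01 _ h0 h1
  · rcases h2 with h2 | h2
    · exact d02 _ h0 h2
    · exact d12 _ h1 h2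
  · rcases h2 with h2 | h2
    · exact d12 _ h1 h2
    · exact d02 _ h0 h2
  · exact d01 _ h0 h1

/-- the common spine coordinate -/
theorem common (hfb : S_fib) {n : ℕ} {U V : Set E3}
    {B A C : ℕ → Set E3} (h : TP G.Sp n U V B A C) (hn : 3 ≤ n) :
    ∃ g, ∃ u ∈ U, ∃ v ∈ V, u.1 = (1 / 2 : ℝ) ^ g ∧ v.1 = (1 / 2 : ℝ) ^ g := by
  have h1 : ∃ u ∈ U, ∃ v ∈ V, u.1 = v.1 := by
    by_contra hcon
    push Not at hcon
    have oU : OrdConnected (Prod.fst '' U) :=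
      (h.kU.isPreconnected.image _ continuous_fst.continuousOn).ordConnected
    have oV : OrdConnected (Prod.fst '' V) :=
      (h.kV.isPreconnected.image _ continuous_fst.continuousOn).ordConnected
    have hne : ∀ x ∈ Prod.fst '' U, ∀ y ∈ Prod.fst '' V, x ≠ y := by
      rintro _ ⟨u, hu, rfl⟩ _ ⟨v, hv, rfl⟩
      exact hcon u hu v hv
    obtain ⟨u0, hu0⟩ := h.UB 0 (by omega)
    obtain ⟨u1, hu1⟩ := h.UB 1 (by omega)
    obtain ⟨v0, hv0⟩ := h.CV 0 (by omega)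
    obtain ⟨v1, hv1⟩ := h.CV 1 (by omega)
    have key : ∀ c : ℝ, c ∈ uIcc u0.1 v0.1 → c ∈ uIcc u1.1 v1.1 → Irrational c → False := by
      intro c hc0 hc1 hirr
      have hpow : ∀ g : ℕ, c ≠ (1 / 2 : ℝ) ^ g := by
        intro g hg
        refine hirr ⟨(1 / 2 : ℚ) ^ g, ?_⟩
        rw [hg]; push_cast; rfl
      have hD : ∀ k < n, ∀ u ∈ B k, ∀ v ∈ C k, c ∈ uIcc u.1 v.1 →
          (c, (0 : ℝ), (0 : ℝ)) ∈ B k ∪ A k ∪ C k := by
        intro k hk u hu v hv hcc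
        have oD : OrdConnected (Prod.fst '' (B k ∪ A k ∪ C k)) :=
          ((h.connD hk).image _ continuous_fst.continuousOn).ordConnected
        obtain ⟨x, hx, hxc⟩ := oD.uIcc_subset ⟨u, Or.inl (Or.inl hu), rfl⟩
          ⟨v, Or.inr hv, rfl⟩ hcc
        have := (hfb G x (h.subD hk hx)).2.2.1 (by rw [hxc]; exact hpow)
        rw [this, hxc] at hx
        exact hx
      exact Set.disjoint_left.1 (h.dD 0 (by omega) 1 (by omega) (by omega))
        (hD 0 (by omega) u0 hu0.2 v0 hv0.1 hc0) (hD 1 (by omega) u1 hu1.2 v1 hv1.1 hc1)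
    -- order of the two intervals
    have mU : ∀ u ∈ U, u.1 ∈ Prod.fst '' U := fun u hu => ⟨u, hu, rfl⟩
    have mV : ∀ v ∈ V, v.1 ∈ Prod.fst '' V := fun v hv => ⟨v, hv, rfl⟩
    have hord : ∀ S T : Set ℝ, OrdConnected S → OrdConnected T → (∀ x ∈ S, ∀ y ∈ T, x ≠ y) →
        ∀ s ∈ S, ∀ t ∈ T, s < t → ∀ s' ∈ S, ∀ t' ∈ T, s' < t' := by
      intro S T oS oT hd s hs t ht hst s' hs' t' ht'
      by_contra hlt
      push Not at hlt
      have hlt' : t' < s' := lt_of_le_of_ne hlt (Ne.symm (hd s' hs' t' ht'))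
      rcases lt_or_gt_of_ne (hd s hs t' ht') with h1 | h1
      · exact hd t' (oS.out hs hs' ⟨h1.le, hlt'.le⟩) t' ht' rfl
      · exact hd s hs s (oT.out ht' ht ⟨h1.le, hst.le⟩) rfl
    rcases lt_or_gt_of_ne (hne _ (mU u0 hu0.1) _ (mV v0 hv0.2)) with h1 | h1
    · have hall := hord _ _ oU oV hne _ (mU u0 hu0.1) _ (mV v0 hv0.2) h1
      have h00 := hall _ (mU u0 hu0.1) _ (mV v0 hv0.2)
      have h01 := hall _ (mU u0 hu0.1) _ (mV v1 hv1.2)
      have h10 := hall _ (mU u1 hu1.1) _ (mV v0 hv0.2)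
      have h11 := hall _ (mU u1 hu1.1) _ (mV v1 hv1.2)
      obtain ⟨c, hirr, hc1, hc2⟩ := exists_irrational_btwn
        (max_lt (lt_min h00 h01) (lt_min h10 h11))
      rw [max_lt_iff] at hc1
      rw [lt_min_iff] at hc2
      refine key c ?_ ?_ hirr <;> rw [mem_uIcc] <;> left <;> constructor <;> linarith [hc1.1, hc1.2, hc2.1, hc2.2]
    · have hne' : ∀ x ∈ Prod.fst '' V, ∀ y ∈ Prod.fst '' U, x ≠ y :=
        fun x hx y hy => (hne y hy x hx).symm
      have hall := hord _ _ oV oU hne' _ (mV v0 hv0.2) _ (mU u0 hu0.1) h1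
      have h00 := hall _ (mV v0 hv0.2) _ (mU u0 hu0.1)
      have h01 := hall _ (mV v0 hv0.2) _ (mU u1 hu1.1)
      have h10 := hall _ (mV v1 hv1.2) _ (mU u0 hu0.1)
      have h11 := hall _ (mV v1 hv1.2) _ (mU u1 hu1.1)
      obtain ⟨c, hirr, hc1, hc2⟩ := exists_irrational_btwn
        (max_lt (lt_min h00 h01) (lt_min h10 h11))
      rw [max_lt_iff] at hc1
      rw [lt_min_iff] at hc2
      refine key c ?_ ?_ hirr <;> rw [mem_uIcc] <;> right <;> constructor <;> linarith [hc1.1, hc1.2, hc2.1, hc2.2]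
  obtain ⟨u, hu, v, hv, huv⟩ := h1
  by_cases hp : ∀ g : ℕ, u.1 ≠ (1 / 2 : ℝ) ^ g
  · exfalso
    have e1 := (hfb G u (h.sU hu)).2.2.1 hp
    have e2 := (hfb G v (h.sV hv)).2.2.1 (by rw [← huv]; exact hp)
    have : u = v := by rw [e1, e2, huv]
    exact Set.disjoint_left.1 h.dUV hu (this ▸ hv)
  · push Not at hp
    obtain ⟨g, hg⟩ := hp
    exact ⟨g, u, hu, v, hv, hg, huv ▸ hg⟩

/-- STEP 2 -/
theorem step2 (hj : S_inj) (hcp : S_compact) (hbn : S_bun) (ho : S_arcO) (hc : S_arcC) {n : ℕ}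
    {U V : Set E3} {B A C : ℕ → Set E3} (h : TP G.Sp n U V B A C) (hn : 3 ≤ n) {g : ℕ}
    (hU : U ⊆ G.bun g) (hV : (V ∩ (G.bun g ∪ {((1 / 2 : ℝ) ^ g, (0 : ℝ), (0 : ℝ))})).Nonempty) :
    G.Complete g ∧ G.nn g = n := by
  have hp : G.pt g 0 1 ∈ U := by
    by_contra hp
    exact step1 G hj hcp ho hc h hn hU hp
  have hcomp : G.Complete g := by
    obtain ⟨i, y, hi, hy, hr, hxy⟩ := hU hp
    have hy1 : (1 : ℝ) = y := (hj G g g 0 i 1 y hxy).2.1
    subst hy1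
    rcases hr.2.2 with h1 | ⟨b0, -, h2⟩
    · exact h1
    · have : (0 : ℝ) < (1 / 2 : ℝ) ^ b0 := by positivity
      linarith
  refine ⟨hcomp, ?_⟩
  have hpV : G.pt g 0 1 ∉ V := fun h' => Set.disjoint_left.1 h.dUV hp h'
  have hq : ((1 / 2 : ℝ) ^ g, (0 : ℝ), (0 : ℝ)) ∈ V := by
    by_contra hq
    have hne : (V ∩ G.bun g).Nonempty := by
      obtain ⟨v, hv1, hv2 | hv2⟩ := hV
      · exact ⟨v, hv1, hv2⟩
      · rw [mem_singleton_iff] at hv2
        rw [hv2] at hv1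
        exact absurd hv1 hq
    have := lemL G hbn h.kV.isPreconnected h.sV hne hq
    exact step1 G hj hcp ho hc h.swap hn this hpV
  have hAb : ∀ i < n, A i ⊆ G.bun g := by
    intro i hi
    have hc1 : IsPreconnected (U ∪ B i) :=
      IsPreconnected.union' (h.UB i hi) h.kU.isPreconnected (h.kB i hi).isPreconnected
    have hc2 : IsPreconnected ((U ∪ B i) ∪ A i) := by
      refine IsPreconnected.union' ?_ hc1 (h.kA i hi).isPreconnected
      obtain ⟨x, hx1, hx2⟩ := h.BA i hi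
      exact ⟨x, Or.inr hx1, hx2⟩
    have := lemL G hbn hc2 (union_subset (union_subset h.sU (h.sB i hi)) (h.sA i hi))
      ⟨_, Or.inl (Or.inl hp), hU hp⟩ (by
        rintro ((h1 | h1) | h1)
        · exact Set.disjoint_left.1 h.dUV h1 hq
        · exact Set.disjoint_left.1 (h.dVB i hi) hq h1
        · exact Set.disjoint_left.1 (h.dVA i hi) hq h1)
    exact fun x hx => this (Or.inr hx)
  have hAp : ∀ i < n, G.pt g 0 1 ∉ A i := fun i hi h' => Set.disjoint_left.1 (h.dUA i hi) hp h'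
  have hAq : ∀ i < n, ((1 / 2 : ℝ) ^ g, (0 : ℝ), (0 : ℝ)) ∉ A i :=
    fun i hi h' => Set.disjoint_left.1 (h.dVA i hi) hq h'
  have hκ : ∀ i : Fin n, ∃ k : Fin (G.nn g), A i ⊆ G.arcO g k 0 1 := by
    intro i
    obtain ⟨k, hk, hk2⟩ := oneArc G hj ho hc (h.kA i i.2) (h.sA i i.2) (hAb i i.2) (hAp i i.2)
    exact ⟨⟨k, hk⟩, hk2⟩
  choose κ hκ using hκ
  -- heights cannot be compared on one arc
  have hcmp : ∀ i < n, ∀ j < n, i ≠ j → ∀ k < G.nn g, ∀ y y' : ℝ, 0 < y' → y' < y → y < 1 →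
      G.Reach g y → G.pt g k y ∈ A i → G.pt g k y' ∈ A j → False := by
    intro i hi j hj' hij k hk y y' hy0 hyy hy1 hr hyA hyA'
    have hc1 : IsPreconnected (A i ∪ C i) :=
      IsPreconnected.union' (h.AC i hi) (h.kA i hi).isPreconnected (h.kC i hi).isPreconnected
    have hc2 : IsPreconnected ((A i ∪ C i) ∪ V) := by
      refine IsPreconnected.union' ?_ hc1 h.kV.isPreconnected
      obtain ⟨x, hx1, hx2⟩ := h.CV i hi
      exact ⟨x, Or.inr hx1, hx2⟩
    have hsub := lemM G ho hc (a := y') (b := 1) hk hy0.le le_rfl hc2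
      (union_subset (union_subset (h.sA i hi) (h.sC i hi)) h.sV)
      ⟨_, Or.inl (Or.inl hyA), ⟨y, hyy, hy1, by linarith, hy1, hr, rfl⟩⟩
      (by
        rintro ((h1 | h1) | h1)
        · exact Set.disjoint_left.1 (h.dD i hi j hj' hij) (Or.inl (Or.inr h1)) (Or.inl (Or.inr hyA'))
        · exact Set.disjoint_left.1 (h.dD i hi j hj' hij) (Or.inr h1) (Or.inl (Or.inr hyA'))
        · exact Set.disjoint_left.1 (h.dVA j hj') h1 hyA')
      (by
        rw [pt_one]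
        rintro ((h1 | h1) | h1)
        · exact hAp i hi h1
        · exact Set.disjoint_left.1 (h.dUC i hi) hp h1
        · exact hpV h1)
    obtain ⟨z, hz1, hz2, hz3, -, -, hz⟩ := hsub (Or.inr hq)
    rw [← pt_zero G g k] at hz
    have := (hj G g g k k 0 z hz).2.1
    linarith
  have hinj : Function.Injective κ := by
    intro i j hij
    by_contra hne
    have hne' : (i : ℕ) ≠ j := fun h' => hne (Fin.ext h')
    obtain ⟨x, hx⟩ := (h.kA i i.2).nonempty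
    obtain ⟨x', hx'⟩ := (h.kA j j.2).nonempty
    obtain ⟨y, -, -, hy1, hy2, hy3, hy4⟩ := hκ i hx
    obtain ⟨y', -, -, hy1', hy2', hy3', hy4'⟩ := hκ j hx'
    rw [hy4] at hx
    rw [hy4', ← hij] at hx'
    rcases lt_trichotomy y y' with hlt | heq | hlt
    · exact hcmp j j.2 i i.2 hne'.symm _ (κ i).2 y' y hy1 hlt hy2' hy3' hx' hx
    · rw [← heq] at hx'
      exact Set.disjoint_left.1 (h.dD i i.2 j j.2 hne') (Or.inl (Or.inr hx)) (Or.inl (Or.inr hx'))
    · exact hcmp i i.2 j j.2 hne' _ (κ i).2 y y' hy1' hlt hy2 hy3 hx hx'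
  have hsurj : Function.Surjective κ := by
    intro k
    by_contra hcon
    push Not at hcon
    have hreach : ∀ y : ℝ, 0 ≤ y → y ≤ 1 → G.Reach g y := fun y h1 h2 => ⟨h1, h2, Or.inl hcomp⟩
    -- the closed arc is covered by two disjoint closed sets
    have hF1 : IsClosed (U ∪ ⋃ i ∈ Finset.range n, B i) :=
      h.cU.union (isClosed_biUnion_finset fun i hi => h.cB i (Finset.mem_range.1 hi))
    have hF2 : IsClosed (V ∪ ⋃ i ∈ Finset.range n, C i) :=
      h.cV.union (isClosed_biUnion_finset fun i hi => h.cC i (Finset.mem_range.1 hi))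
    have hcov : G.arcC g k 0 1 ⊆ (U ∪ ⋃ i ∈ Finset.range n, B i) ∪
        (V ∪ ⋃ i ∈ Finset.range n, C i) := by
      rintro x ⟨y, hy0, hy1, hr, hx⟩
      have hxS : x ∈ G.Sp := Or.inr ⟨g, k, y, k.2, hr, hx⟩
      rcases h.cov x hxS with h1 | h1 | ⟨i, hi, h1 | h1 | h1⟩
      · exact Or.inl (Or.inl h1)
      · exact Or.inr (Or.inl h1)
      · exact Or.inl (Or.inr (mem_biUnion (Finset.mem_range.2 hi) h1))
      · exfalso
        obtain ⟨z, -, -, hz0, hz1, -, hz⟩ := hκ ⟨i, hi⟩ h1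
        rw [hx] at hz
        obtain ⟨-, hyz, h5⟩ := hj G g g k (κ ⟨i, hi⟩) y z hz
        rcases h5 with h5 | h5 | h5
        · exact hcon ⟨i, hi⟩ (Fin.ext h5.symm)
        · linarith
        · linarith
      · exact Or.inr (Or.inr (mem_biUnion (Finset.mem_range.2 hi) h1))
    have hpre := isPreconnected_closed_iff.1 (hc G g k 0 1).2 _ _ hF1 hF2 hcov
      ⟨G.pt g 0 1, ⟨1, zero_le_one, le_rfl, hreach 1 zero_le_one le_rfl, (pt_one G g k).symm⟩,
        Or.inl hp⟩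
      ⟨_, ⟨0, le_rfl, zero_le_one, hreach 0 le_rfl zero_le_one, (pt_zero G g k).symm⟩,
        Or.inl hq⟩
    obtain ⟨x, -, hx1, hx2⟩ := hpre
    rcases hx1 with hx1 | hx1 <;> rcases hx2 with hx2 | hx2
    · exact Set.disjoint_left.1 h.dUV hx1 hx2
    · simp only [mem_iUnion, Finset.mem_range] at hx2
      obtain ⟨i, hi, hx2⟩ := hx2
      exact Set.disjoint_left.1 (h.dUC i hi) hx1 hx2
    · simp only [mem_iUnion, Finset.mem_range] at hx1
      obtain ⟨i, hi, hx1⟩ := hx1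
      exact Set.disjoint_left.1 (h.dVB i hi) hx2 hx1
    · simp only [mem_iUnion, Finset.mem_range] at hx1 hx2
      obtain ⟨i, hi, hx1⟩ := hx1
      obtain ⟨j, hj', hx2⟩ := hx2
      by_cases hij : i = j
      · subst hij
        exact Set.disjoint_left.1 (h.dBC i hi) hx1 hx2
      · exact Set.disjoint_left.1 (h.dD i hi j hj' hij) (Or.inl (Or.inl hx1)) (Or.inr hx2)
  have hcard := Fintype.card_of_bijective ⟨hinj, hsurj⟩
  simpa using hcard.symm

/-- **Lemma A** -/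
theorem main : S_inj → S_fib → S_bun → S_arcO → S_arcC → S_compact → S_A := by
  intro hj hfb hbn ho hc hcp G n K hn hK
  have h := toTP n K hK (by omega)
  obtain ⟨g, u, hu, v, hv, hug, hvg⟩ := common G hfb h hn
  have hu' := (hfb G u (h.sU hu)).2.2.2 g hug
  have hv' := (hfb G v (h.sV hv)).2.2.2 g hvg
  have memU : (K 0 ∩ (G.bun g ∪ {((1 / 2 : ℝ) ^ g, (0 : ℝ), (0 : ℝ))})).Nonempty :=
    ⟨u, hu, hu'.symm.imp id (fun h => mem_singleton_iff.2 h)⟩
  have memV : (K 1 ∩ (G.bun g ∪ {((1 / 2 : ℝ) ^ g, (0 : ℝ), (0 : ℝ))})).Nonempty :=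
    ⟨v, hv, hv'.symm.imp id (fun h => mem_singleton_iff.2 h)⟩
  by_cases hq : ((1 / 2 : ℝ) ^ g, (0 : ℝ), (0 : ℝ)) ∈ K 0
  · have hqV : ((1 / 2 : ℝ) ^ g, (0 : ℝ), (0 : ℝ)) ∉ K 1 :=
      fun h' => Set.disjoint_left.1 h.dUV hq h'
    have hne : (K 1 ∩ G.bun g).Nonempty := by
      rcases hv' with hv' | hv'
      · rw [hv'] at hv; exact absurd hv hqV
      · exact ⟨v, hv, hv'⟩
    exact ⟨g, step2 G hj hcp hbn ho hc h.swap hn
      (lemL G hbn h.kV.isPreconnected h.sV hne hqV) memU⟩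
  · have hne : (K 0 ∩ G.bun g).Nonempty := by
      rcases hu' with hu' | hu'
      · rw [hu'] at hu; exact absurd hu hq
      · exact ⟨u, hu, hu'⟩
    exact ⟨g, step2 G hj hcp hbn ho hc h hn
      (lemL G hbn h.kU.isPreconnected h.sU hne hq) memV⟩

end

end Pool.Agent.W465.LP
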