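import Pool.Agent.W297.LP.Stm
/-! LP-UP (MP_6505eb_co): the Turan colouring. -/
set_option autoImplicit false

open Finset Filter Topology

namespace Pool.Agent.W465.LPUp
open Pool.Agent.W297.LP

/-- the Turan colouring -/
def TG (n m : ℕ) : SimpleGraph (Fin n) where
  Adj x y := x ≠ y ∧ x.val % m = y.val % m
  symm := ⟨fun _ _ h => ⟨h.1.symm, h.2.symm⟩⟩
  loopless := ⟨fun _ h => h.1 rfl⟩

lemma class_card (n m r : ℕ) :
    ((Finset.univ : Finset (Fin n)).filter (fun x => x.val % m = r)).card ≤ n / m + 1 := by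
  have : ((Finset.univ : Finset (Fin n)).filter (fun x => x.val % m = r)).card ≤
      (Finset.range (n / m + 1)).card := by
    apply Finset.card_le_card_of_injOn (fun x : Fin n => x.val / m)
    · intro x _
      rw [Finset.mem_coe, Finset.mem_range]
      have : x.val / m ≤ n / m := Nat.div_le_div_right x.isLt.le
      show x.val / m < n / m + 1
      omega
    · intro x hx y hy hxy
      rw [Finset.mem_coe, Finset.mem_filter] at hx hy
      apply Fin.ext
      rw [← Nat.div_add_mod x.val m, ← Nat.div_add_mod y.val m, hx.2, hy.2]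
      have hxy' : x.val / m = y.val / m := hxy
      rw [hxy']
  simpa using this

lemma count_le {k : ℕ} (hk : 4 ≤ k) {t : ℕ} (H : SimpleGraph (Fin t)) (hconn : H.Connected)
    (S : Finset (Fin t)) (hSc : S.card = k) (hS : ∀ u ∈ S, ∀ v ∈ S, u ≠ v → H.Adj u v) (n : ℕ)
    (F : Finset (Fin t ↪ Fin n))
    (hF : ∀ f ∈ F, (∀ u v, H.Adj u v → (TG n (k - 1)).Adj (f u) (f v)) ∨
      (∀ u v, H.Adj u v → (TG n (k - 1))ᶜ.Adj (f u) (f v))) :
    F.card ≤ (k - 1) * (n / (k - 1) + 1) ^ t := by
  classical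
  have hm : 0 < k - 1 := by omega
  have hres : ∀ f ∈ F, ∃ r ∈ Finset.range (k - 1), ∀ u, (f u).val % (k - 1) = r := by
    intro f hf
    rcases hF f hf with h | h
    · obtain ⟨u₀⟩ := hconn.nonempty
      refine ⟨(f u₀).val % (k - 1), Finset.mem_range.2 (Nat.mod_lt _ hm), fun u => ?_⟩
      obtain ⟨w⟩ := hconn.preconnected u u₀
      induction w with
      | nil => rfl
      | cons hadj _ ih => exact (h _ _ hadj).2.trans ih
    · exfalso
      have hinj : Set.InjOn (fun u => (f u).val % (k - 1)) (S : Set (Fin t)) := by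
        intro u hu v hv huv
        by_contra hne
        have h1 := h u v (hS u hu v hv hne)
        rw [SimpleGraph.compl_adj] at h1
        exact h1.2 ⟨h1.1, huv⟩
      have hc := Finset.card_le_card_of_injOn (t := Finset.range (k - 1))
        (fun u => (f u).val % (k - 1))
        (fun u _ => by
          rw [Finset.mem_coe, Finset.mem_range]
          exact Nat.mod_lt _ hm) hinj
      rw [hSc, Finset.card_range] at hc
      omega
  have hsub : F ⊆ (Finset.range (k - 1)).biUnion
      (fun r => F.filter (fun f => ∀ u, (f u).val % (k - 1) = r)) := by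
    intro f hf
    obtain ⟨r, hr, h⟩ := hres f hf
    exact Finset.mem_biUnion.2 ⟨r, hr, Finset.mem_filter.2 ⟨hf, h⟩⟩
  have hone : ∀ r ∈ Finset.range (k - 1),
      (F.filter (fun f => ∀ u, (f u).val % (k - 1) = r)).card ≤ (n / (k - 1) + 1) ^ t := by
    intro r _
    have h1 : (F.filter (fun f => ∀ u, (f u).val % (k - 1) = r)).card ≤
        (Fintype.piFinset (fun _ : Fin t =>
          (Finset.univ : Finset (Fin n)).filter (fun x => x.val % (k - 1) = r))).card := by
      apply Finset.card_le_card_of_injOn (fun f : Fin t ↪ Fin n => (f : Fin t → Fin n))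
      · intro f hf
        rw [Finset.mem_coe, Finset.mem_filter] at hf
        rw [Finset.mem_coe, Fintype.mem_piFinset]
        intro u
        rw [Finset.mem_filter]
        exact ⟨Finset.mem_univ _, hf.2 u⟩
      · intro f _ g _ hfg
        exact DFunLike.coe_injective hfg
    rw [Fintype.card_piFinset, Finset.prod_const, Finset.card_univ, Fintype.card_fin] at h1
    exact h1.trans (Nat.pow_le_pow_left (class_card n (k - 1) r) t)
  calc F.card ≤ _ := Finset.card_le_card hsub
    _ ≤ ∑ r ∈ Finset.range (k - 1), (F.filter (fun f => ∀ u, (f u).val % (k - 1) = r)).card :=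
        Finset.card_biUnion_le
    _ ≤ ∑ r ∈ Finset.range (k - 1), (n / (k - 1) + 1) ^ t := Finset.sum_le_sum hone
    _ = _ := by rw [Finset.sum_const, Finset.card_range, smul_eq_mul]

theorem up : SUp := by
  intro k hk t H hH ε hε
  obtain ⟨hconn, S, hSc, hS, -⟩ := hH
  have hmR : ((k - 1 : ℕ) : ℝ) = (k : ℝ) - 1 := by
    rw [Nat.cast_sub (by omega), Nat.cast_one]
  have hm0 : (0 : ℝ) < ((k - 1 : ℕ) : ℝ) := by
    have : 0 < k - 1 := by omega
    exact_mod_cast this
  set m : ℝ := ((k - 1 : ℕ) : ℝ) with hmdef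
  have hval : m * ((1 / m) / 1) ^ t = ((k : ℝ) - 1) ^ ((1 : ℤ) - (t : ℤ)) := by
    rw [← hmR, zpow_sub₀ hm0.ne', zpow_one, zpow_natCast, div_one, div_pow, one_pow]
    ring
  have hlim : Tendsto (fun n : ℕ => m * ((1 + (1 / m) * (n : ℝ)) / ((1 - (t : ℝ)) + 1 * (n : ℝ))) ^ t)
      atTop (𝓝 (m * ((1 / m) / 1) ^ t)) :=
    ((tendsto_add_mul_div_add_mul_atTop_nhds (1 : ℝ) (1 - (t : ℝ)) (1 / m) one_ne_zero).pow t).const_mul m
  have hev := hlim.eventually_lt_const (u := m * ((1 / m) / 1) ^ t + ε) (by linarith)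
  obtain ⟨N, hN⟩ := eventually_atTop.1 hev
  refine ⟨max N t, fun n hn => ⟨TG n (k - 1), ?_⟩⟩
  have hnN : N ≤ n := (le_max_left _ _).trans hn
  have hnt : t ≤ n := (le_max_right _ _).trans hn
  have h1 := hN n hnN
  rw [hval] at h1
  refine le_trans ?_ h1.le
  have hposN : (0 : ℝ) < (1 - (t : ℝ)) + 1 * (n : ℝ) := by
    have : (t : ℝ) ≤ n := by exact_mod_cast hnt
    linarith
  have hden : ((1 - (t : ℝ)) + 1 * (n : ℝ)) ^ t ≤ ((n.descFactorial t : ℕ) : ℝ) := by
    have h2 : (n + 1 - t) ^ t ≤ n.descFactorial t := Nat.pow_sub_le_descFactorial n t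
    have h3 : (((n + 1 - t) ^ t : ℕ) : ℝ) ≤ ((n.descFactorial t : ℕ) : ℝ) := by exact_mod_cast h2
    rw [Nat.cast_pow, Nat.cast_sub (by omega)] at h3
    push_cast at h3
    have h4 : (1 - (t : ℝ)) + 1 * (n : ℝ) = (n : ℝ) + 1 - t := by ring
    rw [h4]
    exact h3
  rw [div_pow, ← mul_div_assoc]
  refine div_le_div₀ (by positivity) ?_ (by positivity) hden
  refine le_trans (Nat.cast_le.2 (count_le hk H hconn S hSc hS n _ ?_)) ?_
  · classical
    intro f hf
    rw [Finset.mem_filter] at hf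
    exact hf.2
  rw [Nat.cast_mul, Nat.cast_pow, Nat.cast_add, Nat.cast_one]
  apply mul_le_mul_of_nonneg_left _ hm0.le
  apply pow_le_pow_left₀ (by positivity)
  have : ((n / (k - 1) : ℕ) : ℝ) ≤ (n : ℝ) / ((k - 1 : ℕ) : ℝ) := Nat.cast_div_le
  rw [← hmdef] at this
  have h5 : (n : ℝ) / m = 1 / m * n := by ring
  linarith

end Pool.Agent.W465.LPUp
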